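import Pool.Agent.Run7.h619.TC.Abs
import Pool.Agent.Run7.h619.HG.Flow
import Pool.Agent.Run7.h619.HG.Main
import Pool.Agent.Run7.h619.HG.Crit

/-!
# Products of arbitrary diffeomorphisms with time changes of homogeneous flows
-/

set_option autoImplicit false
set_option linter.unusedSectionVars false

open scoped Manifold ContDiff Topology NNReal
open Filter Set Metric NormedSpace

universe u v

namespace Run7.h619.TC

open Pool.Agent.H718R2.G Pool.Agent.W564.SC Pool.Agent.TH290.CL Pool.Agent.TH382.QC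
  Pool.Agent.TH382.HS Run7.h619.HG

variable {A : Type*} [NormedRing A] [NormedAlgebra ℝ A] [CompleteSpace A]
  {G : Subgroup Aˣ} {g : Submodule ℝ A}

/-- `N` is the product of `Q` and another manifold, as a manifold with a smooth action of `G` (trivial on
the other factor): `π : N → Q` is smooth and equivariant, and the stabilisers of `y` and of `π y` are
equal. -/
structure IsProd (G : Subgroup Aˣ) (n : ℕ) (N : Type*) [TopologicalSpace N] [ChartedSpace (V n) N]
    (m : ℕ) (Q : Type*) [TopologicalSpace Q] [ChartedSpace (V m) Q] (ρ : G → N → N) (σ : G → Q → Q)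
    (π : N → Q) : Prop where
  actN : IsGAction G n N univ ρ
  actQ : IsGAction G m Q univ σ
  smooth : ContMDiff (𝓡 n) (𝓡 m) ∞ π
  equiv : ∀ u y, π (ρ u y) = σ u (π y)
  stab : ∀ u y, σ u (π y) = π y → ρ u y = y

/-- the exponential of an element of the Lie algebra -/
noncomputable def expG (hG : IsLie G g) (W : A) (hW : W ∈ g) : G := ⟨eu W, hG.exp_mem W hW⟩

section

variable {n : ℕ} {N : Type u} [TopologicalSpace N] [ChartedSpace (V n) N]

/-- the family of flows defined by an action -/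
noncomputable def hflow (hG : IsLie G g) (ρ : G → N → N) {j : ℕ} (e : V j ≃L[ℝ] g) (W : A)
    (hW : W ∈ g) (p : V j) (t : ℝ) (y : N) : N :=
  ρ (expG hG (t • (W + (e p : A))) (g.smul_mem _ (g.add_mem hW (e p).2))) y

theorem hflow_fam (hG : IsLie G g) {ρ : G → N → N} (hρ : IsGAction G n N univ ρ) {j : ℕ}
    (e : V j ≃L[ℝ] g) (W : A) (hW : W ∈ g) : FlowFam (V j) n N (hflow hG ρ e W hW) where
  smooth := by
    obtain ⟨L⟩ : Nonempty ((V j × ℝ) ≃L[ℝ] V (j + 1)) :=
      FiniteDimensional.nonempty_continuousLinearEquiv_of_finrank_eq (by simp)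
    let c : V (j + 1) → G := fun x => expG hG ((L.symm x).2 • (W + (e (L.symm x).1 : A)))
      (g.smul_mem _ (g.add_mem hW (e (L.symm x).1).2))
    have hc : ContDiff ℝ ∞ (fun s => ((c s : Aˣ) : A)) := by
      show ContDiff ℝ ∞ fun x => exp ((L.symm x).2 • (W + (e (L.symm x).1 : A)))
      have h1 : ContDiff ℝ ∞ (exp : A → A) :=
        (contDiff_iff_contDiffAt.2 fun x => ((exp_analytic x).contDiffAt))
      have h2 : ContDiff ℝ ∞ fun p : V j => (e p : A) := g.subtypeL.contDiff.comp e.contDiff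
      have h3 : ContDiff ℝ ∞ fun x => (L.symm x).1 := L.symm.contDiff.fst
      have h4 : ContDiff ℝ ∞ fun x => (L.symm x).2 := L.symm.contDiff.snd
      exact h1.comp (h4.smul (contDiff_const.add (h2.comp h3)))
    have h1 := hρ.smooth (j + 1) c hc
    rw [univ_prod_univ, contMDiffOn_univ] at h1
    have h2 : ContMDiff (𝓘(ℝ, V j × ℝ).prod (𝓡 n)) ((𝓡 (j + 1)).prod (𝓡 n)) ∞
        (fun q : (V j × ℝ) × N => (L q.1, q.2)) :=
      (L.contDiff.contMDiff.comp contMDiff_fst).prodMk contMDiff_snd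
    have h3 := h1.comp h2
    have h4 : (fun q : (V j × ℝ) × N => hflow hG ρ e W hW q.1.1 q.1.2 q.2) =
        (fun p : V (j + 1) × N => ρ (c p.1) p.2) ∘ (fun q : (V j × ℝ) × N => (L q.1, q.2)) := by
      funext q
      show ρ _ q.2 = ρ (c (L q.1)) q.2
      congr 1
      show expG hG _ _ = expG hG _ _
      congr 1
      · rw [L.symm_apply_apply]
    rw [h4]
    exact h3
  zero := fun p y => by
    unfold hflow
    have h1 : expG hG ((0 : ℝ) • (W + (e p : A))) (g.smul_mem _ (g.add_mem hW (e p).2)) = 1 := by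
      apply Subtype.ext
      show eu ((0 : ℝ) • (W + (e p : A))) = 1
      rw [zero_smul, eu_zero]
    rw [h1, hρ.one y (mem_univ y)]
  add := fun p s t y => by
    unfold hflow
    rw [← hρ.mul _ _ y (mem_univ y)]
    congr 1
    apply Subtype.ext
    show eu ((s + t) • (W + (e p : A))) = eu (s • (W + (e p : A))) * eu (t • (W + (e p : A)))
    rw [add_smul, eu_add (((Commute.refl _).smul_left _).smul_right _)]

theorem S0_closed [FiniteDimensional ℝ A] [T2Space N] [CompactSpace N] [IsManifold (𝓡 n) ∞ N]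
    (hG : IsLie G g) {σ : G → N → N}
    (hσ : IsGAction G n N univ σ) (q : N) (X : A)
    (hX : ∃ᶠ Y in 𝓝 X, Y ∈ S0 g (stab univ σ q n hσ (mem_univ q))) :
    X ∈ S0 g (stab univ σ q n hσ (mem_univ q)) := by
  obtain ⟨Y, hY, hYS⟩ := exists_seq_forall_of_frequently hX
  have hXg : X ∈ g := by
    have := (Submodule.closed_of_finiteDimensional g).mem_of_tendsto hY
      (Eventually.of_forall fun k => (hYS k).1)
    exact this
  refine ⟨hXg, fun t => ?_⟩
  have h1 : Tendsto (fun k => expG hG (t • Y k) (g.smul_mem t (hYS k).1)) atTop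
      (𝓝 (expG hG (t • X) (g.smul_mem t hXg))) := by
    rw [tendsto_subtype_rng]
    exact ((eu_cont (A := A)).tendsto _).comp (hY.const_smul t)
  have hc : Continuous fun a : G => σ a q := act_cont hσ (mem_univ q)
  have h2 := (hc.tendsto _).comp h1
  have h3 : ∀ k, σ (expG hG (t • Y k) (g.smul_mem t (hYS k).1)) q = q := by
    intro k
    obtain ⟨h4, h5⟩ := (hYS k).2 t
    exact h5
  have h4 : Tendsto (fun _ : ℕ => q) atTop (𝓝 (σ (expG hG (t • X) (g.smul_mem t hXg)) q)) := by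
    refine h2.congr fun k => ?_
    exact h3 k
  have h5 := tendsto_nhds_unique h4 tendsto_const_nhds
  exact ⟨hG.exp_mem _ (g.smul_mem t hXg), h5⟩

end

variable [FiniteDimensional ℝ A] {n : ℕ} {N : Type u} [TopologicalSpace N] [T2Space N]
  [CompactSpace N] [ChartedSpace (V n) N] [IsManifold (𝓡 n) ∞ N] {m : ℕ} {Q : Type v}
  [TopologicalSpace Q] [T2Space Q] [CompactSpace Q] [ChartedSpace (V m) Q] [IsManifold (𝓡 m) ∞ Q]
  {ρ : G → N → N} {σ : G → Q → Q} {π : N → Q}

theorem conj_rec {r : ℕ∞} (F₀ : DiffM n N r) (κ : N → N) (hκ : Continuous κ)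
    (hc : ∀ y, F₀ (κ y) = κ (F₀ y)) (z : N) (hz : IsRec F₀.toHomeomorph z) :
    IsRec F₀.toHomeomorph (κ z) := by
  rcases rec_cases F₀.toHomeomorph z hz with h | h
  · apply isRec_of_returns
    intro W hW
    obtain ⟨k, hk, hkW⟩ := h (κ ⁻¹' W) (hκ.continuousAt.preimage_mem_nhds hW)
    refine ⟨k, hk, ?_⟩
    have h1 : ∀ (i : ℕ) (x : N), F₀^[i] (κ x) = κ (F₀^[i] x) := by
      intro i
      induction i with
      | zero => exact fun x => rfl
      | succ i ih =>
        intro x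
        rw [Function.iterate_succ_apply, Function.iterate_succ_apply, hc, ih]
    show F₀^[k] (κ z) ∈ W
    rw [h1]
    exact hkW
  · apply isRec_of_returns_symm
    intro W hW
    obtain ⟨k, hk, hkW⟩ := h (κ ⁻¹' W) (hκ.continuousAt.preimage_mem_nhds hW)
    refine ⟨k, hk, ?_⟩
    have hc' : ∀ y, F₀.symm (κ y) = κ (F₀.symm y) := by
      intro y
      apply F₀.injective
      show F₀ (F₀.symm (κ y)) = F₀ (κ (F₀.symm y))
      rw [F₀.apply_symm_apply, hc, F₀.apply_symm_apply]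
    have h1 : ∀ (i : ℕ) (x : N), F₀.symm^[i] (κ x) = κ (F₀.symm^[i] x) := by
      intro i
      induction i with
      | zero => exact fun x => rfl
      | succ i ih =>
        intro x
        rw [Function.iterate_succ_apply, Function.iterate_succ_apply, hc', ih]
    show F₀.symm^[k] (κ z) ∈ W
    rw [h1]
    exact hkW

/-- **Products of arbitrary diffeomorphisms with time changes of homogeneous flows.** -/
theorem main {r : ℕ∞} (hr : 1 ≤ r) (hG : IsLie G g) (hC : HasCartan g)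
    (hP : IsProd G n N m Q ρ σ π) (F₀ F : DiffM n N r) (hF₀ : ∀ u y, F₀ (ρ u y) = ρ u (F₀ y))
    (hπF : ∀ y, π (F₀ y) = π y) (W : A) (hW : W ∈ g) (β : Q → ℝ)
    (hβ : ContMDiff (𝓡 m) 𝓘(ℝ, ℝ) ∞ β) (hβ0 : ∀ q, 0 < β q) (τ : Q → ℝ)
    (hτ : ∀ q, ∫ s in (0 : ℝ)..τ q, β (σ (expG hG (s • W) (g.smul_mem s hW)) q) = 1)
    (hF : ∀ y, F y = ρ (expG hG (τ (π y) • W) (g.smul_mem _ hW)) (F₀ y)) (z : N)
    (hz : IsRec F₀.toHomeomorph z) (hlat : IsLatticePt G g σ (π z))
    (hne : ∃ u, σ u (π z) ≠ π z) : ClosableAt n N r F z := by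
  obtain ⟨e⟩ : Nonempty (V (Module.finrank ℝ g) ≃L[ℝ] g) :=
    FiniteDimensional.nonempty_continuousLinearEquiv_of_finrank_eq (by simp)
  obtain ⟨j, hj⟩ : ∃ j, j = Module.finrank ℝ g := ⟨_, rfl⟩
  rw [← hj] at e
  have hψ := hflow_fam hG hP.actN e W hW
  have hσf := hflow_fam hG hP.actQ e W hW
  obtain ⟨ψ, hψd⟩ : ∃ ψ, ψ = hflow hG ρ e W hW := ⟨_, rfl⟩
  obtain ⟨ς, hςd⟩ : ∃ ς, ς = hflow hG σ e W hW := ⟨_, rfl⟩
  rw [← hψd] at hψ
  rw [← hςd] at hσf
  have hπψ : ∀ p t y, π (ψ p t y) = ς p t (π y) := by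
    intro p t y
    rw [hψd, hςd]
    exact hP.equiv _ _
  have hFψ : ∀ p t y, F₀ (ψ p t y) = ψ p t (F₀ y) := by
    intro p t y
    rw [hψd]
    exact hF₀ _ _
  have hstψ : ∀ p t y, ς p t (π y) = π y → ψ p t y = y := by
    intro p t y h
    rw [hςd] at h
    rw [hψd]
    exact hP.stab _ _ h
  have hβN : ContMDiff (𝓡 n) 𝓘(ℝ, ℝ) ∞ (fun y => β (π y)) := hβ.comp hP.smooth
  have hβN0 : ∀ y, 0 < β (π y) := fun y => hβ0 _
  -- the time changes
  have hxi : ∀ p t y, xi ψ (fun y => β (π y)) p t y = xi ς β p t (π y) := by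
    intro p t y
    unfold xi Phi
    simp only [hπψ]
  have hψ' := change hψ hβN hβN0
  have hσ' := change hσf hβ hβ0
  have hτ' : ∀ q, τ q = xi ς β 0 1 q := by
    intro q
    apply xi_unique hσf hβ hβ0
    have h1 : ∀ s : ℝ, ς 0 s q = σ (expG hG (s • W) (g.smul_mem s hW)) q := by
      intro s
      rw [hςd]
      unfold hflow
      congr 1
      apply Subtype.ext
      show eu (s • (W + (e 0 : A))) = eu (s • W)
      rw [map_zero, Submodule.coe_zero, add_zero]
    unfold Phi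
    simp only [h1]
    exact hτ q
  refine abs_close hr hψ' hσ' hP.smooth ?_ ?_ F₀ F ?_ hπF ?_ z ?_
  · intro p t y
    rw [hπψ, hxi]
  · intro p t y h
    rw [hxi]
    exact hstψ p _ y h
  · intro p t y
    rw [hFψ, hxi, hxi, hπF]
  · intro y
    rw [hF, hxi, hπF, ← hτ', hψd]
    unfold hflow
    congr 1
    apply Subtype.ext
    show eu (τ (π y) • W) = eu (τ (π y) • (W + (e 0 : A)))
    rw [map_zero, Submodule.coe_zero, add_zero]
  · intro U hU ε hε
    obtain ⟨K, hK⟩ := coc_of hP.actQ (mem_univ (π z)) hlat.compact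
    have hd := dense_of hP.actQ (mem_univ (π z)) hlat
    obtain ⟨Γ, hΓ⟩ : ∃ Γ, Γ = stab univ σ (π z) m hP.actQ (mem_univ (π z)) := ⟨_, rfl⟩
    have hΓm : ∀ u : G, (u : Aˣ) ∈ Γ ↔ σ u (π z) = π z := by
      intro u
      rw [hΓ]
      exact ⟨fun h => h.2, fun h => ⟨u.2, h⟩⟩
    have hS0 := S0_closed hG hP.actQ (π z)
    rw [← hΓ] at hK hd hS0
    have hneΓ : ∃ u ∈ G, u ∉ Γ := by
      obtain ⟨u, hu⟩ := hne
      exact ⟨u, u.2, fun h => hu ((hΓm u).1 h)⟩
    -- the sizes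
    have hcont : Continuous fun a : G => ρ a z := act_cont hP.actN (mem_univ z)
    obtain ⟨δ₁, hδ₁, hδ₁U⟩ : ∃ δ : ℝ, 0 < δ ∧ ∀ (X : A) (hX : X ∈ g), ‖X‖ < δ →
        ρ (expG hG X hX) z ∈ U := by
      have h1 : Tendsto (fun X : g => ρ (expG hG X X.2) z) (𝓝 0) (𝓝 (ρ (expG hG ((0 : g) : A) (0 : g).2) z)) := by
        have h2 : Continuous fun X : g => expG hG (X : A) X.2 := by
          apply Continuous.subtype_mk
          exact eu_cont.comp continuous_subtype_val
        exact (hcont.comp h2).tendsto 0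
      have h2 : ρ (expG hG ((0 : g) : A) (0 : g).2) z = z := by
        have h3 : expG hG ((0 : g) : A) (0 : g).2 = 1 := by
          apply Subtype.ext
          show eu ((0 : g) : A) = 1
          rw [Submodule.coe_zero, eu_zero]
        rw [h3, hP.actN.one z (mem_univ z)]
      rw [h2] at h1
      have h3 := h1.eventually hU
      obtain ⟨δ, hδ, hδ2⟩ := Metric.eventually_nhds_iff.1 h3
      refine ⟨δ, hδ, fun X hX hXδ => ?_⟩
      exact hδ2 (y := ⟨X, hX⟩) (by rw [dist_zero_right]; exact hXδ)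
    obtain ⟨δ₂, hδ₂, hδ₂e⟩ : ∃ δ : ℝ, 0 < δ ∧ ∀ X : g, ‖X‖ < δ → ‖e.symm X‖ < ε := by
      have h1 : Tendsto (fun X : g => ‖e.symm X‖) (𝓝 0) (𝓝 ‖e.symm 0‖) :=
        (e.symm.continuous.norm).tendsto 0
      rw [map_zero, norm_zero] at h1
      obtain ⟨δ, hδ, hδ2⟩ := Metric.eventually_nhds_iff.1 (h1.eventually (gt_mem_nhds hε))
      exact ⟨δ, hδ, fun X hX => hδ2 (by rwa [dist_zero_right])⟩
    obtain ⟨Y, hY, hYW, X, hX, hXn, T, hT, hTΓ, s, hsΓ⟩ := closed_orbits hG hC hK hd hS0 hneΓ hW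
      (min δ₁ δ₂) (lt_min hδ₁ hδ₂)
    obtain ⟨p, hp⟩ : ∃ p : V j, p = e.symm ⟨Y - W, g.sub_mem hY hW⟩ := ⟨_, rfl⟩
    have hWp : W + (e p : A) = Y := by
      rw [hp, e.apply_symm_apply]
      show W + (Y - W) = Y
      abel
    have hpn : ‖p‖ < ε := by
      rw [hp]
      apply hδ₂e
      show ‖Y - W‖ < δ₂
      exact hYW.trans_le (min_le_right _ _)
    obtain ⟨k, hk⟩ : ∃ k : G, k = expG hG (-X) (g.neg_mem hX) := ⟨_, rfl⟩
    have hkA : (k : Aˣ) = (eu X)⁻¹ := by
      rw [hk, ← eu_neg]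
      rfl
    have hkU : ρ k z ∈ U := by
      rw [hk]
      apply hδ₁U
      rw [norm_neg]
      exact hXn.trans_le (min_le_left _ _)
    have hςk : ∀ t, ς p t (π (ρ k z)) = π (ρ k z) ↔ eu X * eu (t • Y) * (eu X)⁻¹ ∈ Γ := by
      intro t
      have h1 : (k⁻¹ * expG hG (t • Y) (g.smul_mem t hY) * k : G) =
          (⟨eu X * eu (t • Y) * (eu X)⁻¹, G.mul_mem (G.mul_mem (hG.exp_mem X hX)
            (hG.exp_mem _ (g.smul_mem t hY))) (G.inv_mem (hG.exp_mem X hX))⟩ : G) := by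
        apply Subtype.ext
        show (k : Aˣ)⁻¹ * eu (t • Y) * (k : Aˣ) = eu X * eu (t • Y) * (eu X)⁻¹
        rw [hkA, inv_inv]
      have h2 : ς p t (π (ρ k z)) = σ (expG hG (t • Y) (g.smul_mem t hY) * k) (π z) := by
        rw [hP.equiv, hP.actQ.mul _ _ _ (mem_univ _), hςd]
        unfold hflow
        congr 1
        apply Subtype.ext
        show eu (t • (W + (e p : A))) = eu (t • Y)
        rw [hWp]
      have h3 := hΓm (k⁻¹ * expG hG (t • Y) (g.smul_mem t hY) * k)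
      have h4 : ((k⁻¹ * expG hG (t • Y) (g.smul_mem t hY) * k : G) : Aˣ) =
          eu X * eu (t • Y) * (eu X)⁻¹ := by rw [h1]
      rw [h4] at h3
      rw [h3, h2, hP.equiv, mul_assoc,
        hP.actQ.mul k⁻¹ (expG hG (t • Y) (g.smul_mem t hY) * k) _ (mem_univ _)]
      constructor
      · intro h
        rw [h, ← hP.actQ.mul _ _ _ (mem_univ _), inv_mul_cancel, hP.actQ.one _ (mem_univ _)]
      · intro h
        have h5 := congrArg (σ k) h
        rw [← hP.actQ.mul _ _ _ (mem_univ _), mul_inv_cancel, hP.actQ.one _ (mem_univ _)] at h5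
        exact h5
    refine ⟨p, hpn, ρ k z, hkU, ?_, ⟨Phi ς β p T (π (ρ k z)), ?_, ?_⟩, Phi ς β p s (π (ρ k z)), ?_⟩
    · refine conj_rec F₀ (ρ k) ?_ (hF₀ k) z hz
      have h1 := hP.actN.cont
      have h2 : ContinuousOn (fun y : N => ρ k y) univ :=
        h1.comp (f := fun y : N => ((k, y) : G × N)) (by fun_prop) (fun y _ => ⟨mem_univ _, mem_univ _⟩)
      exact continuousOn_univ.1 h2
    · have h1 := phi_lt hσf hβ hβ0 p (π (ρ k z)) hT
      simp only [phi_zero] at h1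
      exact h1
    · have h1 : xi ς β p (Phi ς β p T (π (ρ k z))) (π (ρ k z)) = T :=
        (xi_unique hσf hβ hβ0 rfl).symm
      show ς p (xi ς β p (Phi ς β p T (π (ρ k z))) (π (ρ k z))) (π (ρ k z)) = _
      rw [h1]
      exact (hςk T).2 hTΓ
    · have h1 : xi ς β p (Phi ς β p s (π (ρ k z))) (π (ρ k z)) = s :=
        (xi_unique hσf hβ hβ0 rfl).symm
      show ς p (xi ς β p (Phi ς β p s (π (ρ k z))) (π (ρ k z))) (π (ρ k z)) ≠ _
      rw [h1]
      exact fun h => hsΓ ((hςk s).1 h)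

end Run7.h619.TC
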