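import Pool.Agent.Run7.h619.TC.Tools

/-!
# Closing products with time changes of flows: the abstract statement
-/

set_option autoImplicit false
set_option linter.unusedSectionVars false

open scoped Manifold ContDiff Topology NNReal
open Filter Set Metric

universe u v

namespace Run7.h619.TC

open Pool.Agent.H718R2.G Pool.Agent.W564.SC Pool.Agent.TH290.CL Pool.Agent.TH382.QC
  Pool.Agent.TH382.HS

variable {P : Type} [NormedAddCommGroup P] [NormedSpace ℝ P] [FiniteDimensional ℝ P]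
  {n : ℕ} {N : Type u} [TopologicalSpace N] [ChartedSpace (V n) N] [IsManifold (𝓡 n) ∞ N]
  {ψ : P → ℝ → N → N}

/-- the maps of a flow as diffeomorphisms -/
noncomputable def dflow (hψ : FlowFam P n N ψ) (r : ℕ∞) (p : P) (t : ℝ) : DiffM n N r where
  toFun := ψ p t
  invFun := ψ p (-t)
  left_inv y := by rw [← hψ.add, neg_add_cancel, hψ.zero]
  right_inv y := by rw [← hψ.add, add_neg_cancel, hψ.zero]
  contMDiff_toFun := by
    have h1 : ContMDiff (𝓡 n) (𝓘(ℝ, ℝ).prod (𝓡 n)) ∞ (fun y : N => (t, y)) :=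
      contMDiff_const.prodMk contMDiff_id
    have h2 := (hψ.flow p).smooth.comp h1
    exact h2.of_le (by exact_mod_cast le_top)
  contMDiff_invFun := by
    have h1 : ContMDiff (𝓡 n) (𝓘(ℝ, ℝ).prod (𝓡 n)) ∞ (fun y : N => (-t, y)) :=
      contMDiff_const.prodMk contMDiff_id
    have h2 := (hψ.flow p).smooth.comp h1
    exact h2.of_le (by exact_mod_cast le_top)

theorem dflow_apply (hψ : FlowFam P n N ψ) (r : ℕ∞) (p : P) (t : ℝ) (y : N) :
    dflow hψ r p t y = ψ p t y := rfl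

/-- the family of perturbations -/
theorem pfam (hψ : FlowFam P n N ψ) (r : ℕ∞) (F₀ : DiffM n N r) :
    IsFam n N r (fun s : P × ℝ => F₀.trans (dflow hψ r s.1 (1 + s.2))) := by
  intro y
  have hr : (r : WithTop ℕ∞) ≤ ∞ := by exact_mod_cast le_top
  have h1 : ContMDiffAt (𝓘(ℝ, P × ℝ).prod (𝓡 n)) (𝓡 n) r (fun z : (P × ℝ) × N => F₀ z.2)
      ((0 : P × ℝ), y) := (F₀.contMDiff.contMDiffAt).comp _ contMDiffAt_snd
  have h2 : ContMDiffAt (𝓘(ℝ, P × ℝ).prod (𝓡 n)) 𝓘(ℝ, P × ℝ) r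
      (fun z : (P × ℝ) × N => ((z.1.1, 1 + z.1.2) : P × ℝ)) ((0 : P × ℝ), y) := by
    have c0 : ContMDiff (𝓘(ℝ, P × ℝ).prod (𝓡 n)) 𝓘(ℝ, P × ℝ) r (fun q : (P × ℝ) × N => q.1) :=
      contMDiff_fst
    have c1 : ContDiff ℝ r (fun q : P × ℝ => ((q.1, 1 + q.2) : P × ℝ)) := by fun_prop
    exact (c1.contMDiff.comp c0).contMDiffAt
  have h3 := h2.prodMk h1
  exact ContMDiffAt.comp (g := fun q : (P × ℝ) × N => ψ q.1.1 q.1.2 q.2)
    (f := fun z : (P × ℝ) × N => (((z.1.1, 1 + z.1.2) : P × ℝ), F₀ z.2)) _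
    ((hψ.smooth.of_le hr).contMDiffAt) h3

variable [T2Space N] [CompactSpace N] {m : ℕ} {Q : Type v} [TopologicalSpace Q] [T2Space Q]
  [CompactSpace Q] [ChartedSpace (V m) Q] [IsManifold (𝓡 m) ∞ Q] {σ : P → ℝ → Q → Q} {π : N → Q}

/-- the closing property at points over closed orbits -/
theorem close_one {r : ℕ∞} (hr : 1 ≤ r) (hψ : FlowFam P n N ψ) (hσ : FlowFam P m Q σ)
    (hπs : ContMDiff (𝓡 n) (𝓡 m) ∞ π) (hπ : ∀ p t y, π (ψ p t y) = σ p t (π y))
    (p : P) (hst : ∀ t y, σ p t (π y) = π y → ψ p t y = y)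
    (F₀ : DiffM n N r) (hF₀ : ∀ p t y, F₀ (ψ p t y) = ψ p t (F₀ y)) (hπF : ∀ y, π (F₀ y) = π y)
    (y : N) (hy : IsRec F₀.toHomeomorph y) {T : ℝ} (hT : 0 < T) (hTy : σ p T (π y) = π y) {s : ℝ}
    (hs : σ p s (π y) ≠ π y) (δ : ℝ) (hδ : 0 < δ) :
    ∃ c : ℝ, 0 < c ∧ c < δ ∧ ClosableAt n N r (F₀.trans (dflow hψ r p (1 + c))) y := by
  obtain ⟨B, hB, hBy⟩ := min_period (hσ.flow p) hT hTy hs
  -- a rational rotation number
  obtain ⟨ρ, hρ1, hρ2⟩ := exists_rat_btwn (show 1 / B < (1 + δ) / B by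
    apply div_lt_div_of_pos_right _ hB
    linarith)
  obtain ⟨c, hc⟩ : ∃ c : ℝ, c = ρ * B - 1 := ⟨_, rfl⟩
  have hc0 : 0 < c := by
    rw [div_lt_iff₀ hB] at hρ1
    linarith
  have hcδ : c < δ := by
    rw [lt_div_iff₀ hB] at hρ2
    linarith
  have hρc : 1 + c = ρ * B := by rw [hc]; ring
  refine ⟨c, hc0, hcδ, ?_⟩
  obtain ⟨F, hF⟩ : ∃ F : DiffM n N r, F = F₀.trans (dflow hψ r p (1 + c)) := ⟨_, rfl⟩
  rw [← hF]
  have hFa : ∀ x, F x = ψ p (1 + c) (F₀ x) := fun x => by rw [hF]; rfl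
  have hFs : ∀ x, F.symm x = F₀.symm (ψ p (-(1 + c)) x) := fun x => by rw [hF]; rfl
  -- the flows with period one
  obtain ⟨η, hη⟩ : ∃ η : ℝ → N → N, η = fun t x => ψ p (t * B) x := ⟨_, rfl⟩
  obtain ⟨ζ, hζ⟩ : ∃ ζ : ℝ → Q → Q, ζ = fun t x => σ p (t * B) x := ⟨_, rfl⟩
  have hηf : IsFlow n N η := by
    rw [hη]
    refine ⟨?_, fun x => ?_, fun a b x => ?_⟩
    · have h1 : ContMDiff (𝓘(ℝ, ℝ).prod (𝓡 n)) (𝓘(ℝ, ℝ).prod (𝓡 n)) ∞
          (fun q : ℝ × N => (q.1 * B, q.2)) := by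
        have h2 : ContDiff ℝ ∞ (fun q : ℝ => q * B) := by fun_prop
        exact (h2.contMDiff.comp contMDiff_fst).prodMk contMDiff_snd
      exact (hψ.flow p).smooth.comp h1
    · simp only [zero_mul]
      exact hψ.zero p x
    · simp only [add_mul]
      exact hψ.add p _ _ x
  have hζf : IsFlow m Q ζ := by
    rw [hζ]
    refine ⟨?_, fun x => ?_, fun a b x => ?_⟩
    · have h1 : ContMDiff (𝓘(ℝ, ℝ).prod (𝓡 m)) (𝓘(ℝ, ℝ).prod (𝓡 m)) ∞
          (fun q : ℝ × Q => (q.1 * B, q.2)) := by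
        have h2 : ContDiff ℝ ∞ (fun q : ℝ => q * B) := by fun_prop
        exact (h2.contMDiff.comp contMDiff_fst).prodMk contMDiff_snd
      exact (hσ.flow p).smooth.comp h1
    · simp only [zero_mul]
      exact hσ.zero p x
    · simp only [add_mul]
      exact hσ.add p _ _ x
  have hπη : ∀ t x, π (η t x) = ζ t (π x) := by
    intro t x
    rw [hη, hζ]
    exact hπ p _ x
  have hper : ∀ t, ζ t (π y) = π y ↔ ∃ j : ℤ, t = j := by
    intro t
    rw [hζ]
    simp only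
    rw [hBy]
    constructor
    · rintro ⟨j, hj⟩
      exact ⟨j, mul_right_cancel₀ hB.ne' hj⟩
    · rintro ⟨j, hj⟩
      exact ⟨j, by rw [hj]⟩
  obtain ⟨a, has, hat⟩ := eigen hζf (π y) hper
  -- the invariant set
  obtain ⟨K, hK⟩ : ∃ K : Set N, K = {x | ∃ t, π x = ζ t (π y)} := ⟨_, rfl⟩
  have hF₀K : ∀ x ∈ K, F₀ x ∈ K := by
    intro x hx
    rw [hK] at hx ⊢
    obtain ⟨t, ht⟩ := hx
    exact ⟨t, by rw [hπF, ht]⟩
  have hF₀K' : ∀ x ∈ K, F₀.symm x ∈ K := by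
    intro x hx
    rw [hK] at hx ⊢
    obtain ⟨t, ht⟩ := hx
    exact ⟨t, by rw [← hπF, F₀.apply_symm_apply, ht]⟩
  have hηK : ∀ x ∈ K, ∀ t, η t x ∈ K := by
    intro x hx t
    rw [hK] at hx ⊢
    obtain ⟨u, hu⟩ := hx
    exact ⟨t + u, by rw [hπη, hu, hζf.add]⟩
  have hη1 : ∀ x ∈ K, ∀ j : ℤ, η j x = x := by
    intro x hx j
    rw [hK] at hx
    obtain ⟨u, hu⟩ := hx
    have h1 : ζ j (π x) = π x := by
      rw [hu, ← hζf.add, add_comm, hζf.add, (hper j).2 ⟨j, rfl⟩]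
    rw [hζ] at h1
    rw [hη]
    exact hst _ x h1
  have hFη : ∀ x, F x = η ρ (F₀ x) := by
    intro x
    rw [hFa, hη, hρc]
  have hcomm : ∀ t x, F₀ (η t x) = η t (F₀ x) := by
    intro t x
    rw [hη]
    exact hF₀ p _ x
  have haK : ∀ x ∈ K, ∃ u, a (π x) = ex u ∧ π x = ζ u (π y) := by
    intro x hx
    rw [hK] at hx
    obtain ⟨u, hu⟩ := hx
    exact ⟨u, by rw [hu, hat], hu⟩
  have hroot : RootOn n N r F η (fun x => a (π x)) K ρ 0 1 :=
    { flow := hηf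
      smooth := has.comp hπs
      inv := fun x hx => by
        rw [hFη]
        exact hηK _ (hF₀K x hx) _
      inv' := fun x hx => by
        rw [hFs]
        apply hF₀K'
        have h1 : ψ p (-(1 + c)) x = η (-ρ) x := by
          rw [hη, hρc]
          simp only
          congr 1
          ring
        rw [h1]
        exact hηK x hx _
      invψ := hηK
      comm := fun x _ t => by
        rw [hFη, hFη, hcomm, ← hηf.add, ← hηf.add, add_comm]
      norm := fun x hx => by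
        obtain ⟨u, hu, -⟩ := haK x hx
        rw [hu, norm_ex]
      eigψ := fun x hx t => by
        obtain ⟨u, hu, hu'⟩ := haK x hx
        rw [hu, hπη, hu', ← hζf.add, hat, ex_add]
      eigF := fun x hx => by
        obtain ⟨u, hu, hu'⟩ := haK x hx
        rw [hu, hFη, hπη, hπF, hu', ← hζf.add, hat, ex_add]
      cop := isCoprime_one_right
      root := fun x hx => by
        have e : ((0 : ℕ) : ℝ) * ρ + ((1 : ℤ) : ℝ) = ((1 : ℤ) : ℝ) := by push_cast; ring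
        rw [e, hη1 x hx]
        rfl }
  have hyK : y ∈ K := by
    rw [hK]
    exact ⟨0, by rw [hζf.zero]⟩
  -- iterates
  have hiter : ∀ (k : ℕ) (x : N), F^[k] x = η (k * ρ) (F₀^[k] x) := by
    intro k
    induction k with
    | zero =>
      intro x
      rw [Nat.cast_zero, zero_mul, hηf.zero]
      rfl
    | succ k ih =>
      intro x
      rw [Function.iterate_succ_apply', Function.iterate_succ_apply' F₀, ih, hFη, hcomm, ← hηf.add]
      congr 1
      push_cast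
      ring
  have hcomm' : ∀ t x, F₀.symm (η t x) = η t (F₀.symm x) := by
    intro t x
    apply F₀.injective
    show F₀ (F₀.symm (η t x)) = F₀ (η t (F₀.symm x))
    rw [F₀.apply_symm_apply, hcomm, F₀.apply_symm_apply]
  have hFs' : ∀ x, F.symm x = η (-ρ) (F₀.symm x) := by
    intro x
    rw [hFs, ← hcomm']
    congr 1
    rw [hη, hρc]
    simp only
    congr 1
    ring
  have hiter' : ∀ (k : ℕ) (x : N), F.symm^[k] x = η (-(k * ρ)) (F₀.symm^[k] x) := by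
    intro k
    induction k with
    | zero =>
      intro x
      rw [Nat.cast_zero, zero_mul, neg_zero, hηf.zero]
      rfl
    | succ k ih =>
      intro x
      rw [Function.iterate_succ_apply', Function.iterate_succ_apply' F₀.symm, ih, hFs', hcomm',
        ← hηf.add]
      congr 1
      push_cast
      ring
  have hK0 : ∀ k : ℕ, F₀^[k] y ∈ K := by
    intro k
    induction k with
    | zero => exact hyK
    | succ k ih =>
      rw [Function.iterate_succ_apply']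
      exact hF₀K _ ih
  have hK0' : ∀ k : ℕ, F₀.symm^[k] y ∈ K := by
    intro k
    induction k with
    | zero => exact hyK
    | succ k ih =>
      rw [Function.iterate_succ_apply']
      exact hF₀K' _ ih
  have hden : ∀ k : ℕ, ρ.den ∣ k → ∃ j : ℤ, (k : ℝ) * ρ = j := by
    rintro k ⟨i, rfl⟩
    refine ⟨i * ρ.num, ?_⟩
    have h2 : (ρ : ℝ) * (ρ.den : ℝ) = ρ.num := by exact_mod_cast Rat.mul_den_eq_num ρ
    push_cast
    linear_combination (i : ℝ) * h2
  have hrec : IsRec F.toHomeomorph y := by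
    rcases rec_cases F₀.toHomeomorph y hy with h | h
    · apply isRec_of_returns
      intro W hW
      obtain ⟨M, -, hM1, hMd, hMW, -⟩ := blocks F₀ F₀.continuous y h W hW 0 ρ.den ρ.pos 1 one_pos 0
      refine ⟨M, hM1, ?_⟩
      obtain ⟨j, hj⟩ := hden M hMd
      show F^[M] y ∈ W
      rw [hiter, hj, hη1 _ (hK0 M)]
      exact hMW
    · apply isRec_of_returns_symm
      intro W hW
      have h' : ∀ W ∈ 𝓝 y, ∃ n : ℕ, 1 ≤ n ∧ F₀.symm^[n] y ∈ W := h
      obtain ⟨M, -, hM1, hMd, hMW, -⟩ := blocks F₀.symm F₀.symm.continuous y h' W hW 0 ρ.den ρ.pos 1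
        one_pos 0
      refine ⟨M, hM1, ?_⟩
      obtain ⟨j, hj⟩ := hden M hMd
      show F.symm^[M] y ∈ W
      rw [hiter', hj, ← Int.cast_neg, hη1 _ (hK0' M)]
      exact hMW
  exact Pool.Agent.TH290.CL.main r hr F hroot y hyK hrec

/-- **The abstract statement.** -/
theorem abs_close {r : ℕ∞} (hr : 1 ≤ r) (hψ : FlowFam P n N ψ) (hσ : FlowFam P m Q σ)
    (hπs : ContMDiff (𝓡 n) (𝓡 m) ∞ π) (hπ : ∀ p t y, π (ψ p t y) = σ p t (π y))
    (hst : ∀ p t y, σ p t (π y) = π y → ψ p t y = y) (F₀ F : DiffM n N r)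
    (hF₀ : ∀ p t y, F₀ (ψ p t y) = ψ p t (F₀ y)) (hπF : ∀ y, π (F₀ y) = π y)
    (hF : ∀ y, F y = ψ 0 1 (F₀ y)) (z : N)
    (hz : ∀ W ∈ 𝓝 z, ∀ ε : ℝ, 0 < ε → ∃ p, ‖p‖ < ε ∧ ∃ y ∈ W, IsRec F₀.toHomeomorph y ∧
      (∃ T : ℝ, 0 < T ∧ σ p T (π y) = π y) ∧ ∃ s, σ p s (π y) ≠ π y) : ClosableAt n N r F z := by
  have : SecondCountableTopology N := ChartedSpace.secondCountable_of_sigmaCompact (V n) N
  obtain ⟨W, hW⟩ := (𝓝 z).exists_antitone_basis
  have hex : ∀ k : ℕ, ∃ (p : P) (c : ℝ) (y : N), ‖p‖ < 1 / ((k : ℝ) + 1) ∧ 0 < c ∧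
      c < 1 / ((k : ℝ) + 1) ∧ y ∈ W k ∧
      ClosableAt n N r (F₀.trans (dflow hψ r p (1 + c))) y := by
    intro k
    obtain ⟨p, hp, y, hy, hrec, ⟨T, hT, hTy⟩, s, hs⟩ := hz (W k) (hW.1.mem_of_mem trivial)
      (1 / ((k : ℝ) + 1)) (by positivity)
    obtain ⟨c, hc0, hc1, hcl⟩ := close_one hr hψ hσ hπs hπ p (hst p) F₀ hF₀ hπF y hrec hT hTy hs
      (1 / ((k : ℝ) + 1)) (by positivity)
    exact ⟨p, c, y, hp, hc0, hc1, hy, hcl⟩
  choose p c y hp hc0 hc1 hy hcl using hex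
  have hlim : Tendsto (fun k : ℕ => 1 / ((k : ℝ) + 1)) atTop (𝓝 0) :=
    tendsto_one_div_add_atTop_nhds_zero_nat
  have hp0 : Tendsto p atTop (𝓝 0) := squeeze_zero_norm (fun k => (hp k).le) hlim
  have hc00 : Tendsto c atTop (𝓝 0) := by
    apply squeeze_zero_norm _ hlim
    intro k
    rw [Real.norm_of_nonneg (hc0 k).le]
    exact (hc1 k).le
  have hpc : Tendsto (fun k => ((p k, c k) : P × ℝ)) atTop (𝓝 0) := hp0.prodMk_nhds hc00
  have hcv := Cv.fam Pool.Agent.W917.SC.comp (pfam hψ r F₀) hpc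
  have e : F₀.trans (dflow hψ r (0 : P × ℝ).1 (1 + (0 : P × ℝ).2)) = F := by
    ext x
    show ψ 0 (1 + 0) (F₀ x) = F x
    rw [add_zero, hF]
  simp only [e] at hcv
  exact closable_diag F z _ hcv y (hW.tendsto hy) hcl

end Run7.h619.TC
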