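import Pool.Agent.Run7.h619.TC.Int

/-!
# Time changes of smooth families of flows
-/

set_option autoImplicit false
set_option linter.unusedSectionVars false

open scoped Manifold ContDiff Topology NNReal
open Filter Set Metric

universe u

namespace Run7.h619.TC

open Pool.Agent.H718R2.G Pool.Agent.W564.SC Pool.Agent.TH290.CL

variable {P : Type} [NormedAddCommGroup P] [NormedSpace ℝ P]

/-- a smooth family of smooth flows -/
structure FlowFam (P : Type) [NormedAddCommGroup P] [NormedSpace ℝ P] (n : ℕ) (N : Type*)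
    [TopologicalSpace N] [ChartedSpace (V n) N] (ψ : P → ℝ → N → N) : Prop where
  smooth : ContMDiff (𝓘(ℝ, P × ℝ).prod (𝓡 n)) (𝓡 n) ∞ (fun q : (P × ℝ) × N => ψ q.1.1 q.1.2 q.2)
  zero : ∀ p y, ψ p 0 y = y
  add : ∀ p s t y, ψ p (s + t) y = ψ p s (ψ p t y)

/-- the integral of `β` along the flow -/
noncomputable def Phi {N : Type*} (ψ : P → ℝ → N → N) (β : N → ℝ) (p : P) (s : ℝ) (y : N) : ℝ :=
  ∫ u in (0 : ℝ)..s, β (ψ p u y)

variable {n : ℕ} {N : Type u} [TopologicalSpace N] [ChartedSpace (V n) N] [IsManifold (𝓡 n) ∞ N]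
  {ψ : P → ℝ → N → N} {β : N → ℝ}

theorem FlowFam.flow (hψ : FlowFam P n N ψ) (p : P) : IsFlow n N (ψ p) where
  smooth := by
    have h1 : ContMDiff (𝓘(ℝ, ℝ).prod (𝓡 n)) (𝓘(ℝ, P × ℝ).prod (𝓡 n)) ∞
        (fun q : ℝ × N => (((p, q.1) : P × ℝ), q.2)) :=
      (contMDiff_const.prodMk_space contMDiff_fst).prodMk contMDiff_snd
    exact hψ.smooth.comp h1
  zero := hψ.zero p
  add := hψ.add p

theorem line_cont (hψ : FlowFam P n N ψ) (hβ : ContMDiff (𝓡 n) 𝓘(ℝ, ℝ) ∞ β) (p : P) (y : N) :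
    Continuous fun u : ℝ => β (ψ p u y) :=
  (line_smooth (hψ.flow p) hβ y).continuous

theorem phi_smooth [FiniteDimensional ℝ P] (hψ : FlowFam P n N ψ)
    (hβ : ContMDiff (𝓡 n) 𝓘(ℝ, ℝ) ∞ β) :
    ContMDiff (𝓘(ℝ, P × ℝ).prod (𝓡 n)) 𝓘(ℝ, ℝ) ∞
      (fun q : (P × ℝ) × N => Phi ψ β q.1.1 q.1.2 q.2) := by
  have h1 := int_smooth (E := P × ℝ) (X := ℝ)
    (fun q : ((P × ℝ) × ℝ) × N => q.1.1.2 * β (ψ q.1.1.1 (q.1.1.2 * q.1.2) q.2)) (by
      have c0 : ContMDiff (𝓘(ℝ, (P × ℝ) × ℝ).prod (𝓡 n)) 𝓘(ℝ, (P × ℝ) × ℝ) ∞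
        (fun q : ((P × ℝ) × ℝ) × N => q.1) := contMDiff_fst
      have c1 : ContMDiff (𝓘(ℝ, (P × ℝ) × ℝ).prod (𝓡 n)) 𝓘(ℝ, ℝ) ∞
          (fun q : ((P × ℝ) × ℝ) × N => q.1.1.2) := by
        have : ContDiff ℝ ∞ (fun q : (P × ℝ) × ℝ => q.1.2) := by fun_prop
        exact this.contMDiff.comp c0
      have c2 : ContMDiff (𝓘(ℝ, (P × ℝ) × ℝ).prod (𝓡 n)) 𝓘(ℝ, P × ℝ) ∞
          (fun q : ((P × ℝ) × ℝ) × N => ((q.1.1.1, q.1.1.2 * q.1.2) : P × ℝ)) := by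
        have : ContDiff ℝ ∞ (fun q : (P × ℝ) × ℝ => ((q.1.1, q.1.2 * q.2) : P × ℝ)) := by fun_prop
        exact this.contMDiff.comp c0
      have c3 : ContMDiff (𝓘(ℝ, (P × ℝ) × ℝ).prod (𝓡 n)) (𝓡 n) ∞
          (fun q : ((P × ℝ) × ℝ) × N => ψ q.1.1.1 (q.1.1.2 * q.1.2) q.2) :=
        hψ.smooth.comp (c2.prodMk contMDiff_snd)
      have c4 : ContMDiff (𝓘(ℝ, (P × ℝ) × ℝ).prod (𝓡 n)) 𝓘(ℝ, ℝ) ∞
          (fun q : ((P × ℝ) × ℝ) × N => β (ψ q.1.1.1 (q.1.1.2 * q.1.2) q.2)) := hβ.comp c3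
      exact c1.smul c4)
  have h2 : (fun q : (P × ℝ) × N => Phi ψ β q.1.1 q.1.2 q.2) =
      fun q : (P × ℝ) × N => ∫ t in (0 : ℝ)..1, q.1.2 * β (ψ q.1.1 (q.1.2 * t) q.2) := by
    funext q
    unfold Phi
    rw [intervalIntegral.integral_const_mul]
    have h3 := intervalIntegral.smul_integral_comp_mul_left (a := 0) (b := 1)
      (fun u : ℝ => β (ψ q.1.1 u q.2)) q.1.2
    rw [mul_zero, mul_one, smul_eq_mul] at h3
    exact h3.symm
  rw [h2]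
  exact h1

theorem phi_zero (p : P) (y : N) : Phi ψ β p 0 y = 0 := intervalIntegral.integral_same

theorem phi_add (hψ : FlowFam P n N ψ) (hβ : ContMDiff (𝓡 n) 𝓘(ℝ, ℝ) ∞ β) (p : P) (s t : ℝ)
    (y : N) : Phi ψ β p (s + t) y = Phi ψ β p s y + Phi ψ β p t (ψ p s y) := by
  unfold Phi
  have hc := line_cont hψ hβ p y
  have h1 : ∀ u : ℝ, ψ p u (ψ p s y) = ψ p (u + s) y := fun u => (hψ.add p u s y).symm
  simp only [h1]
  rw [intervalIntegral.integral_comp_add_right (fun u => β (ψ p u y)) s, zero_add, add_comm t s,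
    intervalIntegral.integral_add_adjacent_intervals]
  · exact hc.intervalIntegrable _ _
  · exact hc.intervalIntegrable _ _

theorem phi_deriv (hψ : FlowFam P n N ψ) (hβ : ContMDiff (𝓡 n) 𝓘(ℝ, ℝ) ∞ β) (p : P) (s : ℝ)
    (y : N) : HasDerivAt (fun s => Phi ψ β p s y) (β (ψ p s y)) s := by
  have hc := line_cont hψ hβ p y
  exact intervalIntegral.integral_hasDerivAt_right (hc.intervalIntegrable _ _)
    hc.stronglyMeasurable.stronglyMeasurableAtFilter hc.continuousAt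

theorem phi_lt (hψ : FlowFam P n N ψ) (hβ : ContMDiff (𝓡 n) 𝓘(ℝ, ℝ) ∞ β) (hβ0 : ∀ y, 0 < β y)
    (p : P) (y : N) : StrictMono fun s => Phi ψ β p s y := by
  apply strictMono_of_deriv_pos
  intro s
  rw [(phi_deriv hψ hβ p s y).deriv]
  exact hβ0 _

theorem phi_onto [CompactSpace N] (hψ : FlowFam P n N ψ) (hβ : ContMDiff (𝓡 n) 𝓘(ℝ, ℝ) ∞ β)
    (hβ0 : ∀ y, 0 < β y) (p : P) (y : N) (t : ℝ) : ∃ s, Phi ψ β p s y = t := by
  obtain ⟨b, hb, hbβ⟩ : ∃ b : ℝ, 0 < b ∧ ∀ y, b ≤ β y := by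
    obtain ⟨y₀, -, hy₀⟩ := isCompact_univ.exists_isMinOn (⟨y, mem_univ y⟩ : (univ : Set N).Nonempty)
      hβ.continuous.continuousOn
    exact ⟨β y₀, hβ0 y₀, fun y => hy₀ (mem_univ y)⟩
  have hc := line_cont hψ hβ p y
  have hmono : Monotone fun s => Phi ψ β p s y - b * s := by
    apply monotone_of_deriv_nonneg
    · intro s
      exact ((phi_deriv hψ hβ p s y).differentiableAt).sub (by fun_prop)
    · intro s
      have h1 : HasDerivAt (fun s : ℝ => b * s) b s := by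
        simpa using (hasDerivAt_id s).const_mul b
      have h2 : HasDerivAt (fun s => Phi ψ β p s y - b * s) (β (ψ p s y) - b) s :=
        (phi_deriv hψ hβ p s y).sub h1
      rw [h2.deriv]
      have := hbβ (ψ p s y)
      linarith
  have hcont : Continuous fun s => Phi ψ β p s y := by
    rw [continuous_iff_continuousAt]
    exact fun s => (phi_deriv hψ hβ p s y).continuousAt
  have h0 := phi_zero (ψ := ψ) (β := β) p y
  have hT : (0 : ℝ) ≤ |t| / b := by positivity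
  have hTb : b * (|t| / b) = |t| := by field_simp
  have h1 := hmono hT
  have h2 := hmono (neg_nonpos.2 hT)
  simp only [h0] at h1 h2
  have h3 : t ∈ Icc (Phi ψ β p (-(|t| / b)) y) (Phi ψ β p (|t| / b) y) := by
    constructor
    · have := neg_abs_le t
      linarith
    · have := le_abs_self t
      linarith
  obtain ⟨s, -, hs⟩ := intermediate_value_Icc (by linarith : -(|t| / b) ≤ |t| / b)
    hcont.continuousOn h3
  exact ⟨s, hs⟩

/-- The time `s` with `Phi s = t`. -/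
noncomputable def xi {N : Type*} (ψ : P → ℝ → N → N) (β : N → ℝ) (p : P) (t : ℝ) (y : N) : ℝ :=
  Classical.epsilon fun s => Phi ψ β p s y = t

section

variable [CompactSpace N] (hψ : FlowFam P n N ψ) (hβ : ContMDiff (𝓡 n) 𝓘(ℝ, ℝ) ∞ β)
  (hβ0 : ∀ y, 0 < β y)

include hψ hβ hβ0

theorem phi_xi (p : P) (t : ℝ) (y : N) : Phi ψ β p (xi ψ β p t y) y = t :=
  Classical.epsilon_spec (phi_onto hψ hβ hβ0 p y t)

theorem xi_unique {p : P} {t s : ℝ} {y : N} (h : Phi ψ β p s y = t) : s = xi ψ β p t y :=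
  (phi_lt hψ hβ hβ0 p y).injective (h.trans (phi_xi hψ hβ hβ0 p t y).symm)

theorem xi_zero (p : P) (y : N) : xi ψ β p 0 y = 0 :=
  (xi_unique hψ hβ hβ0 (phi_zero p y)).symm

theorem xi_add (p : P) (s t : ℝ) (y : N) :
    xi ψ β p (s + t) y = xi ψ β p s (ψ p (xi ψ β p t y) y) + xi ψ β p t y := by
  symm
  apply xi_unique hψ hβ hβ0
  rw [add_comm (xi ψ β p s (ψ p (xi ψ β p t y) y)), phi_add hψ hβ, phi_xi hψ hβ hβ0,
    phi_xi hψ hβ hβ0, add_comm]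

theorem xi_smooth [FiniteDimensional ℝ P] : ContMDiff (𝓘(ℝ, P × ℝ).prod (𝓡 n)) 𝓘(ℝ, ℝ) ∞
    (fun q : (P × ℝ) × N => xi ψ β q.1.1 q.1.2 q.2) := by
  rintro ⟨⟨p₀, t₀⟩, y₀⟩
  apply smooth_of_chart
  set φ := chartAt (V n) y₀ with hφ
  have : CompleteSpace ((P × ℝ) × V n) := FiniteDimensional.complete ℝ _
  have htar : φ y₀ ∈ φ.target := φ.map_source (mem_chart_source _ y₀)
  refine implicit (fun q : ((P × ℝ) × V n) × ℝ => Phi ψ β q.1.1.1 q.2 (φ.symm q.1.2) - q.1.1.2)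
    ((p₀, t₀), φ y₀) (fun q : (P × ℝ) × V n => xi ψ β q.1.1 q.1.2 (φ.symm q.2)) ?_
    (β (ψ p₀ (xi ψ β p₀ t₀ (φ.symm (φ y₀))) (φ.symm (φ y₀)))) (hβ0 _).ne' ?_ ?_ ?_
  · have h1 := chart_smooth (phi_smooth hψ hβ) y₀ (p₀, xi ψ β p₀ t₀ (φ.symm (φ y₀))) (φ y₀) htar
    have h2 : ContDiffAt ℝ ∞ (fun q : ((P × ℝ) × V n) × ℝ => (((q.1.1.1, q.2), q.1.2) : (P × ℝ) × V n))
        (((p₀, t₀), φ y₀), xi ψ β p₀ t₀ (φ.symm (φ y₀))) := by fun_prop
    have h3 := ContDiffAt.comp (f := fun q : ((P × ℝ) × V n) × ℝ =>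
      (((q.1.1.1, q.2), q.1.2) : (P × ℝ) × V n)) _ h1 h2
    have h4 : ContDiffAt ℝ ∞ (fun q : ((P × ℝ) × V n) × ℝ => q.1.1.2)
        (((p₀, t₀), φ y₀), xi ψ β p₀ t₀ (φ.symm (φ y₀))) := by fun_prop
    exact h3.sub h4
  · have := (phi_deriv hψ hβ p₀ (xi ψ β p₀ t₀ (φ.symm (φ y₀))) (φ.symm (φ y₀))).sub_const t₀
    exact this
  · show Phi ψ β p₀ (xi ψ β p₀ t₀ (φ.symm (φ y₀))) (φ.symm (φ y₀)) - t₀ = 0
    rw [phi_xi hψ hβ hβ0, sub_self]
  · refine Eventually.of_forall fun q s hs => ?_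
    exact xi_unique hψ hβ hβ0 (sub_eq_zero.1 hs)

/-- the time change -/
theorem change [FiniteDimensional ℝ P] :
    FlowFam P n N (fun p t y => ψ p (xi ψ β p t y) y) where
  smooth := by
    have h1 := xi_smooth hψ hβ hβ0
    have h0 : ContMDiff (𝓘(ℝ, P × ℝ).prod (𝓡 n)) 𝓘(ℝ, P) ∞ (fun q : (P × ℝ) × N => q.1.1) := by
      have c0 : ContMDiff (𝓘(ℝ, P × ℝ).prod (𝓡 n)) 𝓘(ℝ, P × ℝ) ∞ (fun q : (P × ℝ) × N => q.1) :=
        contMDiff_fst
      have : ContDiff ℝ ∞ (fun q : P × ℝ => q.1) := by fun_prop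
      exact this.contMDiff.comp c0
    have h2 : ContMDiff (𝓘(ℝ, P × ℝ).prod (𝓡 n)) (𝓘(ℝ, P × ℝ).prod (𝓡 n)) ∞
        (fun q : (P × ℝ) × N => (((q.1.1, xi ψ β q.1.1 q.1.2 q.2) : P × ℝ), q.2)) :=
      (h0.prodMk_space h1).prodMk contMDiff_snd
    exact hψ.smooth.comp h2
  zero := fun p y => by
    rw [xi_zero hψ hβ hβ0, hψ.zero]
  add := fun p s t y => by
    rw [xi_add hψ hβ hβ0, hψ.add]

end

end Run7.h619.TC
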