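import Pool.Agent.H66R2.RZ_Par
import Pool.Agent.TH290.CL.Flow

/-!
# Parameter integrals on manifolds and implicit functions
-/

set_option autoImplicit false
set_option linter.unusedSectionVars false

open scoped Manifold ContDiff Topology NNReal
open Filter Set Metric

universe u

namespace Run7.h619.TC

open Pool.Agent.H718R2.G Pool.Agent.W564.SC

variable {n : ℕ} {N : Type u} [TopologicalSpace N] [ChartedSpace (V n) N] [IsManifold (𝓡 n) ∞ N]
  {E : Type} [NormedAddCommGroup E] [NormedSpace ℝ E] [FiniteDimensional ℝ E]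
  {X : Type} [NormedAddCommGroup X] [NormedSpace ℝ X] [CompleteSpace X]

/-- A smooth function of `(e, y)` in a chart. -/
theorem chart_smooth {E : Type*} [NormedAddCommGroup E] [NormedSpace ℝ E] {X : Type*}
    [NormedAddCommGroup X] [NormedSpace ℝ X] {J : E × N → X}
    (hJ : ContMDiff (𝓘(ℝ, E).prod (𝓡 n)) 𝓘(ℝ, X) ∞ J) (y₀ : N) (e : E) (v : V n)
    (hv : v ∈ (chartAt (V n) y₀).target) :
    ContDiffAt ℝ ∞ (fun q : E × V n => J (q.1, (chartAt (V n) y₀).symm q.2)) (e, v) := by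
  rw [← contMDiffAt_iff_contDiffAt]
  have h1 : ContMDiffAt 𝓘(ℝ, E × V n) 𝓘(ℝ, E) ∞ (fun q : E × V n => q.1) (e, v) :=
    contDiffAt_fst.contMDiffAt
  have h2 : ContMDiffAt 𝓘(ℝ, E × V n) (𝓡 n) ∞ (fun q : E × V n => q.2) (e, v) :=
    contDiffAt_snd.contMDiffAt
  have h3 : ContMDiffAt (𝓡 n) (𝓡 n) ∞ (chartAt (V n) y₀).symm v := by
    have h4 : ContMDiffOn (𝓡 n) (𝓡 n) ∞ (chartAt (V n) y₀).symm (chartAt (V n) y₀).target :=
      contMDiffOn_symm_of_mem_maximalAtlas (IsManifold.chart_mem_maximalAtlas y₀)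
    exact h4.contMDiffAt ((chartAt (V n) y₀).open_target.mem_nhds hv)
  have h5 : ContMDiffAt 𝓘(ℝ, E × V n) (𝓡 n) ∞
      (fun q : E × V n => (chartAt (V n) y₀).symm q.2) (e, v) :=
    ContMDiffAt.comp (g := (chartAt (V n) y₀).symm) (f := fun q : E × V n => q.2) _ h3 h2
  have h6 : ContMDiffAt 𝓘(ℝ, E × V n) (𝓘(ℝ, E).prod (𝓡 n)) ∞
      (fun q : E × V n => (q.1, (chartAt (V n) y₀).symm q.2)) (e, v) :=
    h1.prodMk h5
  exact ContMDiffAt.comp (g := J)
    (f := fun q : E × V n => (q.1, (chartAt (V n) y₀).symm q.2)) _ hJ.contMDiffAt h6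

/-- Smoothness may be checked in the chart at the point. -/
theorem smooth_of_chart {E : Type*} [NormedAddCommGroup E] [NormedSpace ℝ E] {X : Type*}
    [NormedAddCommGroup X] [NormedSpace ℝ X] {f : E × N → X} (e₀ : E) (y₀ : N)
    (hf : ContDiffAt ℝ ∞ (fun q : E × V n => f (q.1, (chartAt (V n) y₀).symm q.2))
      (e₀, chartAt (V n) y₀ y₀)) :
    ContMDiffAt (𝓘(ℝ, E).prod (𝓡 n)) 𝓘(ℝ, X) ∞ f (e₀, y₀) := by
  set φ := chartAt (V n) y₀ with hφ
  have h5 : ContMDiffAt (𝓡 n) (𝓡 n) ∞ φ y₀ := by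
    have h6 : ContMDiffOn (𝓡 n) (𝓡 n) ∞ φ φ.source :=
      contMDiffOn_of_mem_maximalAtlas (IsManifold.chart_mem_maximalAtlas y₀)
    exact h6.contMDiffAt (chart_source_mem_nhds _ y₀)
  have h7 : ContMDiffAt (𝓘(ℝ, E).prod (𝓡 n)) (𝓡 n) ∞ (fun q : E × N => φ q.2) (e₀, y₀) :=
    ContMDiffAt.comp (g := φ) (f := fun q : E × N => q.2) _ h5 contMDiffAt_snd
  have h8 : ContMDiffAt (𝓘(ℝ, E).prod (𝓡 n)) 𝓘(ℝ, E × V n) ∞ (fun q : E × N => (q.1, φ q.2))
      (e₀, y₀) := contMDiffAt_fst.prodMk_space h7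
  have h9 : ContMDiffAt (𝓘(ℝ, E).prod (𝓡 n)) 𝓘(ℝ, X) ∞
      (fun q : E × N => f (q.1, φ.symm (φ q.2))) (e₀, y₀) :=
    ContDiffAt.comp_contMDiffAt (g := fun q : E × V n => f (q.1, φ.symm q.2))
      (f := fun q : E × N => (q.1, φ q.2)) hf h8
  refine h9.congr_of_eventuallyEq ?_
  have h10 : ∀ᶠ q : E × N in 𝓝 (e₀, y₀), q.2 ∈ φ.source :=
    continuousAt_snd.eventually (chart_source_mem_nhds (V n) y₀)
  filter_upwards [h10] with q hq
  rw [φ.left_inv hq]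

/-- Smoothness of parameter integrals, the parameter lying in the product of a vector space and a
manifold. -/
theorem int_smooth (J : (E × ℝ) × N → X)
    (hJ : ContMDiff (𝓘(ℝ, E × ℝ).prod (𝓡 n)) 𝓘(ℝ, X) ∞ J) :
    ContMDiff (𝓘(ℝ, E).prod (𝓡 n)) 𝓘(ℝ, X) ∞
      (fun q : E × N => ∫ t in (0 : ℝ)..1, J ((q.1, t), q.2)) := by
  rintro ⟨e₀, y₀⟩
  apply smooth_of_chart
  set φ := chartAt (V n) y₀ with hφ
  obtain ⟨v₀, hv₀⟩ : ∃ v₀ : V n, v₀ = φ y₀ := ⟨_, rfl⟩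
  have htar : φ.target ∈ 𝓝 v₀ := by
    rw [hv₀]
    exact φ.open_target.mem_nhds (φ.map_source (mem_chart_source _ y₀))
  obtain ⟨R, hR, hRt⟩ := Metric.nhds_basis_closedBall.mem_iff.1 htar
  let χ : ContDiffBump v₀ := ⟨R / 2, R, by positivity, by linarith⟩
  have hp : ProperSpace (E × V n) := FiniteDimensional.proper_real _
  have key := Pool.Agent.H66R2.RZPar.contDiff_int 0 1 (E × V n) X
    (fun q : (E × V n) × ℝ => χ q.1.2 • J ((q.1.1, q.2), φ.symm q.1.2)) (by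
      rw [contDiff_iff_contDiffAt]
      rintro ⟨⟨e, v⟩, t⟩
      by_cases hv : v ∈ φ.target
      · have h1 := chart_smooth hJ y₀ (e, t) v hv
        have h2 : ContDiffAt ℝ ∞ (fun q : (E × V n) × ℝ => (((q.1.1, q.2), q.1.2) : (E × ℝ) × V n))
            ((e, v), t) := by fun_prop
        have h3 := ContDiffAt.comp (f := fun q : (E × V n) × ℝ =>
          (((q.1.1, q.2), q.1.2) : (E × ℝ) × V n)) _ h1 h2
        have h4 : ContDiffAt ℝ ∞ (fun q : (E × V n) × ℝ => χ q.1.2) ((e, v), t) := by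
          have h5 : ContDiffAt ℝ ∞ χ v := χ.contDiffAt
          have h6 : ContDiffAt ℝ ∞ (fun q : (E × V n) × ℝ => q.1.2) ((e, v), t) := by fun_prop
          exact ContDiffAt.comp (f := fun q : (E × V n) × ℝ => q.1.2) (g := χ) _ h5 h6
        exact h4.smul h3
      · have h1 : v ∉ closedBall v₀ R := fun h => hv (hRt h)
        have h2 : (closedBall v₀ R)ᶜ ∈ 𝓝 v := isClosed_closedBall.isOpen_compl.mem_nhds h1
        have h3 : ∀ᶠ q : (E × V n) × ℝ in 𝓝 ((e, v), t), q.1.2 ∈ (closedBall v₀ R)ᶜ := by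
          have h4 : Continuous fun q : (E × V n) × ℝ => q.1.2 := by fun_prop
          exact h4.continuousAt.eventually h2
        refine (contDiffAt_const (c := (0 : X))).congr_of_eventuallyEq ?_
        filter_upwards [h3] with q hq
        have h4 : χ q.1.2 = 0 := by
          apply χ.zero_of_le_dist
          rw [mem_compl_iff, mem_closedBall, not_le] at hq
          exact hq.le
        rw [h4, zero_smul])
  have hkey := key.contDiffAt (x := ((e₀, φ y₀) : E × V n))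
  refine hkey.congr_of_eventuallyEq ?_
  have h1 : ∀ᶠ q : E × V n in 𝓝 (e₀, φ y₀), q.2 ∈ closedBall v₀ (R / 2) := by
    have h2 : closedBall v₀ (R / 2) ∈ 𝓝 (φ y₀) := by
      rw [← hv₀]
      exact closedBall_mem_nhds _ (by positivity)
    exact continuousAt_snd.eventually h2
  filter_upwards [h1] with q hq
  have h2 : χ q.2 = 1 := χ.one_of_mem_closedBall hq
  simp only [h2, one_smul]

/-- the linear isomorphism `(x, s) ↦ (x, A x + β s)` -/
noncomputable def eqv {X : Type*} [NormedAddCommGroup X] [NormedSpace ℝ X] (A : X →L[ℝ] ℝ) (β : ℝ)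
    (hβ : β ≠ 0) : (X × ℝ) ≃L[ℝ] (X × ℝ) :=
  ContinuousLinearEquiv.equivOfInverse
    ((ContinuousLinearMap.fst ℝ X ℝ).prod
      (A.comp (ContinuousLinearMap.fst ℝ X ℝ) + β • ContinuousLinearMap.snd ℝ X ℝ))
    ((ContinuousLinearMap.fst ℝ X ℝ).prod
      (β⁻¹ • (ContinuousLinearMap.snd ℝ X ℝ - A.comp (ContinuousLinearMap.fst ℝ X ℝ))))
    (by
      rintro ⟨x, t⟩
      ext1
      · simp
      · simp [hβ])
    (by
      rintro ⟨x, t⟩
      ext1
      · simp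
      · simp [hβ])

/-- Implicit functions are smooth. -/
theorem implicit {X : Type*} [NormedAddCommGroup X] [NormedSpace ℝ X] [CompleteSpace X]
    (H : X × ℝ → ℝ) (x₀ : X) (u : X → ℝ) (hH : ContDiffAt ℝ ∞ H (x₀, u x₀)) (β : ℝ) (hβ : β ≠ 0)
    (hd : HasDerivAt (fun s => H (x₀, s)) β (u x₀)) (h0 : H (x₀, u x₀) = 0)
    (huniq : ∀ᶠ x in 𝓝 x₀, ∀ s, H (x, s) = 0 → s = u x) : ContDiffAt ℝ ∞ u x₀ := by
  have hΦd : HasFDerivAt H (fderiv ℝ H (x₀, u x₀)) (x₀, u x₀) :=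
    (hH.differentiableAt (by simp)).hasFDerivAt
  obtain ⟨A, hA⟩ : ∃ A : X →L[ℝ] ℝ, A = (fderiv ℝ H (x₀, u x₀)).comp (ContinuousLinearMap.inl ℝ X ℝ) :=
    ⟨_, rfl⟩
  have hβ' : fderiv ℝ H (x₀, u x₀) (0, 1) = β := by
    have h1 : HasDerivAt (fun t : ℝ => ((x₀, t) : X × ℝ)) (0, 1) (u x₀) :=
      (hasDerivAt_const _ _).prodMk (hasDerivAt_id _)
    have h2 := hΦd.comp_hasDerivAt (u x₀) h1
    exact h2.unique hd
  obtain ⟨F, hF⟩ : ∃ F : X × ℝ → X × ℝ, F = fun q => (q.1, H q) := ⟨_, rfl⟩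
  have hFs : ContDiffAt ℝ ∞ F (x₀, u x₀) := by
    rw [hF]
    exact contDiffAt_fst.prodMk hH
  have hFd : HasFDerivAt F (eqv A β hβ : (X × ℝ) →L[ℝ] (X × ℝ)) (x₀, u x₀) := by
    have h1 : HasFDerivAt F ((ContinuousLinearMap.fst ℝ X ℝ).prod (fderiv ℝ H (x₀, u x₀)))
        (x₀, u x₀) := by
      rw [hF]
      exact hasFDerivAt_fst.prodMk hΦd
    refine h1.congr_fderiv ?_
    refine ContinuousLinearMap.ext fun q => ?_
    obtain ⟨x, s⟩ := q
    have h2 : fderiv ℝ H (x₀, u x₀) (x, s) = A x + β * s := by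
      have e : ((x, s) : X × ℝ) = (x, 0) + s • (0, 1) := by simp
      rw [e, map_add, map_smul, hβ', hA, smul_eq_mul, mul_comm]
      rfl
    show (x, fderiv ℝ H (x₀, u x₀) (x, s)) = (x, A x + β * s)
    rw [h2]
  have hF0 : F (x₀, u x₀) = (x₀, 0) := by
    rw [hF]
    show (x₀, H (x₀, u x₀)) = _
    rw [h0]
  obtain ⟨g, hg⟩ : ∃ g, g = hFs.localInverse hFd (by simp) := ⟨_, rfl⟩
  have hgs : ContDiffAt ℝ ∞ g (x₀, 0) := by
    have := hFs.to_localInverse hFd (by simp)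
    rw [hF0, ← hg] at this
    exact this
  have hgr : ∀ᶠ z in 𝓝 ((x₀, (0 : ℝ)) : X × ℝ), F (g z) = z := by
    have := (hFs.hasStrictFDerivAt' hFd (by simp)).eventually_right_inverse
    rw [hF0] at this
    rw [hg]
    exact this
  have h2 : Tendsto (fun x : X => ((x, (0 : ℝ)) : X × ℝ)) (𝓝 x₀) (𝓝 (x₀, 0)) :=
    (Continuous.prodMk_left (0 : ℝ)).tendsto x₀
  have h3 : ∀ᶠ x in 𝓝 x₀, u x = (g (x, 0)).2 := by
    filter_upwards [h2.eventually hgr, huniq] with x hx hu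
    have h4 : F (g (x, 0)) = ((g (x, 0)).1, H (g (x, 0))) := by rw [hF]
    rw [h4] at hx
    have h5 : (g (x, 0)).1 = x := congrArg Prod.fst hx
    have h6 : H (g (x, 0)) = 0 := congrArg Prod.snd hx
    refine (hu _ ?_).symm
    have h7 : (x, (g (x, 0)).2) = g (x, 0) := Prod.ext h5.symm rfl
    rw [h7]
    exact h6
  have h4 : ContDiffAt ℝ ∞ (fun x : X => (g (x, 0)).2) x₀ := by
    have h5 : ContDiffAt ℝ ∞ (fun x : X => ((x, (0 : ℝ)) : X × ℝ)) x₀ :=
      contDiffAt_id.prodMk contDiffAt_const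
    have h6 : ContDiffAt ℝ ∞ (fun x : X => g (x, 0)) x₀ :=
      ContDiffAt.comp (f := fun x : X => ((x, (0 : ℝ)) : X × ℝ)) x₀ hgs h5
    exact h6.snd
  exact h4.congr_of_eventuallyEq h3

end Run7.h619.TC
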