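import Pool.Agent.Run7.h619.TC.Main

/-!
# Products with time changes of homogeneous flows: statement
-/

set_option autoImplicit false
set_option linter.unusedSectionVars false

open scoped Manifold ContDiff Topology
open Filter Set

universe u v

namespace Run7.h619.TC

open Pool.Agent.H718R2.G Pool.Agent.TH382.QC Pool.Agent.TH382.HS Run7.h619.HG

section

variable {A : Type*} [NormedRing A] [NormedAlgebra ℝ A] [CompleteSpace A] {G : Subgroup Aˣ}
  {g : Submodule ℝ A}

/-- `q ↦ exp(τ(q) W) q` is the time-one map of a smooth time change of the flow of the one-parameter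
group `exp(t W)` on `Q`: for some smooth function `β > 0`, the flow whose velocity is `β⁻¹` times that of
`exp(t W)`. -/
def IsTimeChange (hG : IsLie G g) (W : A) (hW : W ∈ g) (m : ℕ) (Q : Type*) [TopologicalSpace Q]
    [ChartedSpace (V m) Q] (σ : G → Q → Q) (τ : Q → ℝ) : Prop :=
  ∃ β : Q → ℝ, ContMDiff (𝓡 m) 𝓘(ℝ, ℝ) ∞ β ∧ (∀ q, 0 < β q) ∧
    ∀ q, ∫ s in (0 : ℝ)..τ q, β (σ (expG hG (s • W) (g.smul_mem s hW)) q) = 1

/-- `F` is the composition of `F₀` with the time-one map of a smooth time change of a homogeneous flow of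
the factor `Q` of `N`. -/
def IsTCProd (hG : IsLie G g) (n : ℕ) (N : Type*) [TopologicalSpace N] [ChartedSpace (V n) N]
    (m : ℕ) (Q : Type*) [TopologicalSpace Q] [ChartedSpace (V m) Q] (ρ : G → N → N) (σ : G → Q → Q)
    (π : N → Q) (F₀ F : N → N) : Prop :=
  ∃ (W : A) (hW : W ∈ g) (τ : Q → ℝ), IsTimeChange hG W hW m Q σ τ ∧
    ∀ y, F y = ρ (expG hG (τ (π y) • W) (g.smul_mem _ hW)) (F₀ y)

/-- `F₀` commutes with the action of `G` on `N` and preserves the projection to the factor `Q`, and `z`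
is recurrent for `F₀`; the orbit of the projection of `z` to `Q` is compact, not a point, and satisfies the
condition of `IsLatticePt`. -/
structure IsBase (G : Subgroup Aˣ) (g : Submodule ℝ A) (n : ℕ) (N : Type*) [TopologicalSpace N]
    [ChartedSpace (V n) N] (r : ℕ∞) {Q : Type*} (ρ : G → N → N) (σ : G → Q → Q) (π : N → Q)
    (F₀ : DiffM n N r) (z : N) : Prop where
  comm : ∀ u y, F₀ (ρ u y) = ρ u (F₀ y)
  proj : ∀ y, π (F₀ y) = π y
  recz : IsRec F₀.toHomeomorph z
  latt : IsLatticePt G g σ (π z)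
  ne : ∃ u, σ u (π z) ≠ π z

/-- For suitable actions of `G` on `N` and `Q` and a projection `π : N → Q`, the map `F` is a product of a
diffeomorphism with a time change of a homogeneous flow of `Q`, and `z` is a point as in `IsBase`. -/
def IsTCOver (hG : IsLie G g) (m : ℕ) (Q : Type*) [TopologicalSpace Q] [ChartedSpace (V m) Q] (n : ℕ)
    (N : Type*) [TopologicalSpace N] [ChartedSpace (V n) N] (r : ℕ∞) (F : DiffM n N r) (z : N) :
    Prop :=
  ∃ (ρ : G → N → N) (σ : G → Q → Q) (π : N → Q) (F₀ : DiffM n N r), IsProd G n N m Q ρ σ π ∧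
    IsBase G g n N r ρ σ π F₀ z ∧ IsTCProd hG n N m Q ρ σ π F₀ F

/-- The same, for some closed manifold `Q`. -/
def IsTCPointG (hG : IsLie G g) (n : ℕ) (N : Type u) [TopologicalSpace N] [ChartedSpace (V n) N]
    (r : ℕ∞) (F : DiffM n N r) (z : N) : Prop :=
  ∃ (m : ℕ) (Q : Type u) (_ : TopologicalSpace Q) (_ : T2Space Q) (_ : CompactSpace Q)
    (_ : ChartedSpace (V m) Q) (_ : IsManifold (𝓡 m) ∞ Q), IsTCOver hG m Q n N r F z

/-- The same, for some connected Lie group `G` of units of `A` whose Lie algebra has an abelian Cartan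
subalgebra. -/
def IsTCPointA (A : Type*) [NormedRing A] [NormedAlgebra ℝ A] [CompleteSpace A] (n : ℕ) (N : Type u)
    [TopologicalSpace N] [ChartedSpace (V n) N] (r : ℕ∞) (F : DiffM n N r) (z : N) : Prop :=
  ∃ (G : Subgroup Aˣ) (g : Submodule ℝ A) (hG : IsLie G g), HasCartan g ∧ IsTCPointG hG n N r F z

end

/-- `F` is a product of a diffeomorphism with a time change of a homogeneous flow of a closed manifold
`Q`, and `z` is a point as in `IsBase`; the group `G ⊆ GL(d, ℝ)` is a connected linear Lie group whose Lie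
algebra has an abelian Cartan subalgebra. -/
def IsTCPoint (n : ℕ) (N : Type u) [TopologicalSpace N] [ChartedSpace (V n) N] (r : ℕ∞)
    (F : DiffM n N r) (z : N) : Prop :=
  ∃ d : ℕ, IsTCPointA (Md d) n N r F z

variable {n : ℕ} {N : Type u} [TopologicalSpace N] [T2Space N] [CompactSpace N]
  [ChartedSpace (V n) N] [IsManifold (𝓡 n) ∞ N] {r : ℕ∞}

theorem closable_of_tc (hr : 1 ≤ r) (F : DiffM n N r) (z : N) (h : IsTCPoint n N r F z) :
    ClosableAt n N r F z := by
  obtain ⟨d, G, g, hG, hC, m, Q, i1, i2, i3, i4, i5, ρ, σ, π, F₀, hP, hB, W, hW, τ, ⟨β, hβ, hβ0, hτ⟩,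
    hF⟩ := h
  exact main hr hG hC hP F₀ F hB.comm hB.proj W hW β hβ hβ0 τ hτ hF z hB.recz hB.latt hB.ne

theorem limit_tc (hr : 1 ≤ r) (F : DiffM n N r) (z : N)
    (h : ∀ U : Set (DiffM n N r), IsOpen[strongTop n N r] U → F ∈ U →
      ∃ F' ∈ U, z ∈ closure {y | IsTCPoint n N r F' y}) : ClosableAt n N r F z := by
  apply closable_of_limit
  intro U hU hFU
  obtain ⟨F', hF', hz⟩ := h U hU hFU
  exact ⟨F', hF', closure_mono (fun y hy => closable_of_tc hr F' y hy) hz⟩

end Run7.h619.TC
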