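import Pool.Agent.Run7.h619.TC.Change
import Pool.Agent.TH290.CL.Main
import Pool.Agent.TH382.HS.Limit

/-!
# Tools: recurrence, minimal periods, eigenfunctions on periodic orbits, limits
-/

set_option autoImplicit false
set_option linter.unusedSectionVars false

open scoped Manifold ContDiff Topology NNReal
open Filter Set Metric

universe u v

namespace Run7.h619.TC

open Pool.Agent.H718R2.G Pool.Agent.W564.SC Pool.Agent.TH290.CL Pool.Agent.TH382.QC
  Pool.Agent.TH382.HS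

/-- A point which returns in the future is recurrent. -/
theorem isRec_of_returns {X : Type*} [TopologicalSpace X] (F : X ≃ₜ X) (x : X)
    (h : ∀ W ∈ 𝓝 x, ∃ n : ℕ, 1 ≤ n ∧ F^[n] x ∈ W) : IsRec F x := by
  intro hemb
  have h1 : (𝓝 (0 : ℤ)) = comap (fun m : ℤ => (F ^ m) x) (𝓝 ((F ^ (0 : ℤ)) x)) :=
    hemb.isInducing.nhds_eq_comap 0
  rw [nhds_discrete] at h1
  have h2 : ({0} : Set ℤ) ∈ comap (fun m : ℤ => (F ^ m) x) (𝓝 ((F ^ (0 : ℤ)) x)) := by
    rw [← h1]
    exact mem_pure.2 rfl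
  obtain ⟨W, hW, hW2⟩ := mem_comap.1 h2
  have h0 : (F ^ (0 : ℤ)) x = x := by
    rw [zpow_zero]
    rfl
  rw [h0] at hW
  obtain ⟨n, hn, hnW⟩ := h W hW
  have h3 : ((n : ℤ)) ∈ (fun m : ℤ => (F ^ m) x) ⁻¹' W := by
    show (F ^ (n : ℤ)) x ∈ W
    rw [zpow_natCast, pow_apply]
    exact hnW
  have h4 : (n : ℤ) = 0 := hW2 h3
  omega

/-- Recurrence for the inverse. -/
theorem isRec_of_returns_symm {X : Type*} [TopologicalSpace X] (F : X ≃ₜ X) (x : X)
    (h : ∀ W ∈ 𝓝 x, ∃ n : ℕ, 1 ≤ n ∧ F.symm^[n] x ∈ W) : IsRec F x := by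
  intro hemb
  have h1 : (𝓝 (0 : ℤ)) = comap (fun m : ℤ => (F ^ m) x) (𝓝 ((F ^ (0 : ℤ)) x)) :=
    hemb.isInducing.nhds_eq_comap 0
  rw [nhds_discrete] at h1
  have h2 : ({0} : Set ℤ) ∈ comap (fun m : ℤ => (F ^ m) x) (𝓝 ((F ^ (0 : ℤ)) x)) := by
    rw [← h1]
    exact mem_pure.2 rfl
  obtain ⟨W, hW, hW2⟩ := mem_comap.1 h2
  have h0 : (F ^ (0 : ℤ)) x = x := by
    rw [zpow_zero]
    rfl
  rw [h0] at hW
  obtain ⟨n, hn, hnW⟩ := h W hW
  have h3 : (-(n : ℤ)) ∈ (fun m : ℤ => (F ^ m) x) ⁻¹' W := by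
    show (F ^ (-(n : ℤ))) x ∈ W
    rw [zpow_neg_apply]
    exact hnW
  have h4 : -(n : ℤ) = 0 := hW2 h3
  omega

section flow

variable {n : ℕ} {N : Type u} [TopologicalSpace N] [ChartedSpace (V n) N] [IsManifold (𝓡 n) ∞ N]
  {ψ : ℝ → N → N}

theorem flow_cont (hψ : IsFlow n N ψ) (y : N) : Continuous fun t => ψ t y := by
  have h1 : Continuous fun q : ℝ × N => ψ q.1 q.2 := hψ.smooth.continuous
  exact h1.comp (Continuous.prodMk_left y)

/-- the minimal period -/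
theorem min_period [T2Space N] (hψ : IsFlow n N ψ) {y : N} {T : ℝ} (hT : 0 < T) (hTy : ψ T y = y)
    {s : ℝ} (hs : ψ s y ≠ y) : ∃ B : ℝ, 0 < B ∧ ∀ t, ψ t y = y ↔ ∃ j : ℤ, t = j * B := by
  let S : AddSubgroup ℝ :=
    { carrier := {t | ψ t y = y}
      zero_mem' := hψ.zero y
      add_mem' := by
        intro a b ha hb
        show ψ (a + b) y = y
        rw [hψ.add, show ψ b y = y from hb]
        exact ha
      neg_mem' := by
        intro a ha
        show ψ (-a) y = y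
        have h1 := hψ.add (-a) a y
        rw [neg_add_cancel, hψ.zero, show ψ a y = y from ha] at h1
        exact h1.symm }
  have hSc : IsClosed (S : Set ℝ) := isClosed_eq (flow_cont hψ y) continuous_const
  rcases AddSubgroup.dense_or_cyclic S with h1 | ⟨a, ha⟩
  · exfalso
    have h2 := h1.closure_eq
    rw [hSc.closure_eq] at h2
    have h3 : s ∈ (S : Set ℝ) := by
      rw [h2]
      exact mem_univ s
    exact hs h3
  · have hmem : ∀ t, ψ t y = y ↔ ∃ j : ℤ, j • a = t := by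
      intro t
      have h2 : ψ t y = y ↔ t ∈ S := Iff.rfl
      rw [h2, ha, AddSubgroup.mem_closure_singleton]
    have ha0 : a ≠ 0 := by
      rintro rfl
      obtain ⟨j, hj⟩ := (hmem T).1 hTy
      rw [smul_zero] at hj
      exact hT.ne hj
    refine ⟨|a|, abs_pos.2 ha0, fun t => ?_⟩
    rw [hmem]
    constructor
    · rintro ⟨j, hj⟩
      rcases abs_cases a with ⟨h3, -⟩ | ⟨h3, -⟩
      · exact ⟨j, by rw [h3, ← hj, zsmul_eq_mul]⟩
      · exact ⟨-j, by rw [h3, ← hj, zsmul_eq_mul]; push_cast; ring⟩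
    · rintro ⟨j, hj⟩
      rcases abs_cases a with ⟨h3, -⟩ | ⟨h3, -⟩
      · exact ⟨j, by rw [hj, h3, zsmul_eq_mul]⟩
      · exact ⟨-j, by rw [hj, h3, zsmul_eq_mul]; push_cast; ring⟩

theorem ex_smooth : ContDiff ℝ ∞ ex := by
  have h1 : ContDiff ℝ ∞ (fun x : ℝ => Complex.exp (2 * Real.pi * Complex.I * (x : ℝ))) := by
    apply ContDiff.cexp
    exact contDiff_const.mul Complex.ofRealCLM.contDiff
  exact h1

theorem ex_re (x : ℝ) : (ex x).re = Real.cos (2 * Real.pi * x) := by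
  rw [ex_eq, Complex.exp_ofReal_mul_I_re]

/-- a smooth function which is an eigenfunction on a periodic orbit of minimal period one -/
theorem eigen [T2Space N] [CompactSpace N] (hψ : IsFlow n N ψ) (y : N)
    (hy : ∀ t, ψ t y = y ↔ ∃ j : ℤ, t = j) :
    ∃ a : N → ℂ, ContMDiff (𝓡 n) 𝓘(ℝ, ℂ) ∞ a ∧ ∀ t, a (ψ t y) = ex t := by
  have hint : ∀ j : ℤ, ψ j y = y := fun j => (hy j).2 ⟨j, rfl⟩
  have hc := flow_cont hψ y
  -- the bump function
  obtain ⟨C, hC⟩ : ∃ C : Set N, C = (fun t => ψ t y) '' Icc (1 / 8) (7 / 8) := ⟨_, rfl⟩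
  have hCc : IsCompact C := by
    rw [hC]
    exact isCompact_Icc.image hc
  have hyC : y ∉ C := by
    rw [hC]
    rintro ⟨t, ⟨ht1, ht2⟩, hty⟩
    obtain ⟨j, hj⟩ := (hy t).1 hty
    have h1 : (0 : ℝ) < j := by linarith
    have h2 : (j : ℝ) < 1 := by linarith
    have h3 : 0 < j := by exact_mod_cast h1
    have h4 : j < 1 := by exact_mod_cast h2
    omega
  obtain ⟨f, hf0, hf1, hf01⟩ := exists_contMDiffMap_zero_one_of_isClosed (n := ⊤) (𝓡 n)
    hCc.isClosed isClosed_singleton (disjoint_singleton_right.2 hyC)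
  have hχ : ContMDiff (𝓡 n) 𝓘(ℝ, ℝ) ∞ (f : N → ℝ) := f.contMDiff
  -- the integrand
  have hJ : ContMDiff (𝓘(ℝ, ℝ × ℝ).prod (𝓡 n)) 𝓘(ℝ, ℂ) ∞
      (fun q : (ℝ × ℝ) × N => ((f (ψ q.1.2 q.2) : ℝ)) • ex (-q.1.2)) := by
    have c0 : ContMDiff (𝓘(ℝ, ℝ × ℝ).prod (𝓡 n)) 𝓘(ℝ, ℝ × ℝ) ∞ (fun q : (ℝ × ℝ) × N => q.1) :=
      contMDiff_fst
    have c1 : ContMDiff (𝓘(ℝ, ℝ × ℝ).prod (𝓡 n)) 𝓘(ℝ, ℝ) ∞ (fun q : (ℝ × ℝ) × N => q.1.2) := by
      have : ContDiff ℝ ∞ (fun q : ℝ × ℝ => q.2) := by fun_prop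
      exact this.contMDiff.comp c0
    have c2 : ContMDiff (𝓘(ℝ, ℝ × ℝ).prod (𝓡 n)) 𝓘(ℝ, ℂ) ∞ (fun q : (ℝ × ℝ) × N => ex (-q.1.2)) := by
      have : ContDiff ℝ ∞ (fun q : ℝ => ex (-q)) := ex_smooth.comp contDiff_neg
      exact this.contMDiff.comp c1
    have c3 : ContMDiff (𝓘(ℝ, ℝ × ℝ).prod (𝓡 n)) (𝓡 n) ∞ (fun q : (ℝ × ℝ) × N => ψ q.1.2 q.2) :=
      hψ.smooth.comp (c1.prodMk contMDiff_snd)
    exact (hχ.comp c3).smul c2
  have hI := int_smooth (E := ℝ) (X := ℂ) _ hJ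
  obtain ⟨A, hA⟩ : ∃ A : N → ℂ, A = fun x => ∫ t in (0 : ℝ)..1, (f (ψ t x) : ℝ) • ex (-t) := ⟨_, rfl⟩
  have hAs : ContMDiff (𝓡 n) 𝓘(ℝ, ℂ) ∞ A := by
    have h1 : ContMDiff (𝓡 n) (𝓘(ℝ, ℝ).prod (𝓡 n)) ∞ (fun x : N => ((0 : ℝ), x)) :=
      contMDiff_const.prodMk contMDiff_id
    have h2 := hI.comp h1
    rw [hA]
    exact h2
  obtain ⟨k, hk⟩ : ∃ k : ℝ → ℂ, k = fun t => (f (ψ t y) : ℝ) • ex (-t) := ⟨_, rfl⟩
  have hkc : Continuous k := by
    rw [hk]
    exact (hχ.continuous.comp hc).smul (ex_smooth.continuous.comp continuous_neg)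
  have hkp : Function.Periodic k 1 := by
    intro t
    rw [hk]
    simp only
    have h1 : ψ (t + 1) y = ψ t y := by
      rw [hψ.add]
      have := hint 1
      rw [Int.cast_one] at this
      rw [this]
    have h2 : ex (-(t + 1)) = ex (-t) := by
      have := ex_add_int (-t) (-1)
      rw [← this]
      congr 1
      push_cast
      ring
    rw [h1, h2]
  have hAt : ∀ t, A (ψ t y) = ex t * ∫ u in (0 : ℝ)..1, k u := by
    intro t
    rw [hA]
    simp only
    have h1 : ∀ u : ℝ, (f (ψ u (ψ t y)) : ℝ) • ex (-u) = ex t * k (u + t) := by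
      intro u
      rw [hk]
      simp only
      rw [← hψ.add, mul_smul_comm, ← ex_add]
      congr 2
      ring
    simp only [h1]
    rw [intervalIntegral.integral_const_mul, intervalIntegral.integral_comp_add_right k t, zero_add,
      add_comm 1 t, hkp.intervalIntegral_add_eq t 0, zero_add]
  -- the integral does not vanish
  have hpos : 0 < (∫ u in (0 : ℝ)..1, k u).re := by
    have h1 : (∫ u in (0 : ℝ)..1, k u).re = ∫ u in (0 : ℝ)..1, (k u).re := by
      have h2 := Complex.reCLM.intervalIntegral_comp_comm (μ := MeasureTheory.volume)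
        (hkc.intervalIntegrable 0 1)
      exact h2.symm
    rw [h1]
    have hre : ∀ u, (k u).re = f (ψ u y) * Real.cos (2 * Real.pi * u) := by
      intro u
      rw [hk]
      simp only
      rw [Complex.smul_re, ex_re, smul_eq_mul, mul_neg, Real.cos_neg]
    have hpi := Real.pi_pos
    apply intervalIntegral.integral_pos zero_lt_one
    · exact (Complex.continuous_re.comp hkc).continuousOn
    · intro u hu
      rw [hre]
      have hf := hf01 (ψ u y)
      rcases le_or_gt u (1 / 8) with h3 | h3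
      · apply mul_nonneg hf.1
        apply Real.cos_nonneg_of_neg_pi_div_two_le_of_le
        · have : 0 ≤ 2 * Real.pi * u := by
            have := hu.1.le
            positivity
          linarith
        · nlinarith
      · rcases le_or_gt (7 / 8) u with h4 | h4
        · apply mul_nonneg hf.1
          rw [← Real.cos_sub_two_pi]
          apply Real.cos_nonneg_of_neg_pi_div_two_le_of_le
          · nlinarith
          · have := hu.2
            nlinarith
        · have h5 : f (ψ u y) = 0 := by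
            apply hf0
            rw [hC]
            exact ⟨u, ⟨h3.le, h4.le⟩, rfl⟩
          rw [h5, zero_mul]
    · refine ⟨0, ⟨le_rfl, zero_le_one⟩, ?_⟩
      rw [hre, hψ.zero, mul_zero, Real.cos_zero, mul_one]
      have : f y = 1 := hf1 rfl
      rw [this]
      exact one_pos
  obtain ⟨I, hI'⟩ : ∃ I : ℂ, I = ∫ u in (0 : ℝ)..1, k u := ⟨_, rfl⟩
  rw [← hI'] at hpos
  have hI0 : I ≠ 0 := by
    rintro rfl
    rw [Complex.zero_re] at hpos
    exact lt_irrefl _ hpos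
  refine ⟨fun x => A x * I⁻¹, ?_, fun t => ?_⟩
  · have h1 : ContDiff ℝ ∞ (fun w : ℂ => w * I⁻¹) := contDiff_id.mul contDiff_const
    exact h1.contMDiff.comp hAs
  · show A (ψ t y) * I⁻¹ = ex t
    rw [hAt, ← hI', mul_assoc, mul_inv_cancel₀ hI0, mul_one]

end flow

section limit

variable {n : ℕ} {N : Type u} [TopologicalSpace N] [T2Space N] [CompactSpace N]
  [ChartedSpace (V n) N] [IsManifold (𝓡 n) ∞ N] {r : ℕ∞}

/-- If `G m → F`, `y m → z` and `G m` can be closed at `y m`, then `F` can be closed at `z`. -/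
theorem closable_diag (F : DiffM n N r) (z : N) (G : ℕ → DiffM n N r) (hG : Cv G F) (y : ℕ → N)
    (hy : Tendsto y atTop (𝓝 z)) (hp : ∀ m, ClosableAt n N r (G m) (y m)) :
    ClosableAt n N r F z := by
  have hcomp : S_COMP := Pool.Agent.W917.SC.comp
  obtain ⟨T, W, x, hW, hT0, hT1, hT2, hx, hTx⟩ := moves (n := n) r z
  have hxy : Tendsto (fun m => x (y m)) atTop (𝓝 0) := hx.comp hy
  have c1 : Cv (fun m => T (x (y m))) (T 0) := Cv.fam hcomp hT1 hxy
  have c2 : Cv (fun m => (T (x (y m))).symm) (T 0).symm :=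
    Cv.fam (H := fun a => (T a).symm) hcomp hT2 hxy
  have c3 := Cv.trans hcomp c1 (Cv.trans hcomp hG c2)
  have e0 : (T 0).trans (F.trans (T 0).symm) = F := by
    rw [hT0]
    ext y
    rfl
  rw [e0] at c3
  intro U hU hFU
  obtain ⟨m, h3, h4⟩ := ((c3.mem hU hFU).and (hy.eventually hW)).exists
  obtain ⟨K, hK1, hK2⟩ := Cv.exists_seq hcomp (G m) (fun K => IsPer K (y m)) (hp m)
  have c4 := Cv.trans hcomp (Cv.const (T (x (y m)))) (Cv.trans hcomp hK2
    (Cv.const (T (x (y m))).symm))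
  obtain ⟨l, hl⟩ := (c4.mem hU h3).exists
  refine ⟨_, hl, per_conj (T (x (y m))) (f := K l) (fun _ => rfl) ?_⟩
  rw [hTx _ h4]
  exact hK1 l

end limit

end Run7.h619.TC
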